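import Pool.Agent.Helper67.DF.Stmts

/-!
Project DF (MP_10bc19_gt), row CLR: the rotated family.
-/

set_option autoImplicit false

open Finset MeasureTheory

namespace Pool.Agent.Helper34.DF

open Pool.Agent.Helper67.BT (E PG Sp)
open Pool.Agent.Helper67.DF

theorem st_CLR : ST_CLR := by
  intro n c K α U ψ w b h
  have h2 : (0 : ℝ) < √2 := Real.sqrt_pos.mpr two_pos
  have hs2 : √2 * √2 = 2 := Real.mul_self_sqrt two_pos.le
  have hpow : (√2 : ℝ) ^ α = 2 ^ (α / 2) := by
    rw [Real.sqrt_eq_rpow, ← Real.rpow_mul two_pos.le]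
    congr 1
    ring
  have hplus : ∀ l t, HasDerivAt (fun t : ℝ => (t + b l) / √2) (1 / √2) t := by
    intro l t
    exact ((hasDerivAt_id t).add_const (b l)).div_const _
  have hminus : ∀ l t, HasDerivAt (fun t : ℝ => (t - b l) / √2) (1 / √2) t := by
    intro l t
    exact ((hasDerivAt_id t).sub_const (b l)).div_const _
  refine ⟨h.c0, ?_, h.a0, h.a1, ?_, ?_, ?_, ?_, ?_⟩
  · have := h.K0
    positivity
  · intro l t
    unfold rU
    have e1 : (-t + b l) / √2 = -((t - b l) / √2) := by ring
    have e2 : (-t - b l) / √2 = -((t + b l) / √2) := by ring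
    rw [e1, e2, h.ev, h.ev, add_comm]
  · intro l t
    have h3 := (h.dU l ((t + b l) / √2)).comp t (hplus l t)
    have h4 := (h.dU l ((t - b l) / √2)).comp t (hminus l t)
    have h5 := h3.add h4
    have e : ψ l ((t + b l) / √2) * (1 / √2) + ψ l ((t - b l) / √2) * (1 / √2) = rP ψ b l t := by
      unfold rP
      ring
    rw [e] at h5
    exact h5
  · intro l t
    have h3 := (h.dp l ((t + b l) / √2)).comp t (hplus l t)
    have h4 := (h.dp l ((t - b l) / √2)).comp t (hminus l t)
    have h5 := (h3.add h4).div_const (√2)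
    have e : (w l ((t + b l) / √2) * (1 / √2) + w l ((t - b l) / √2) * (1 / √2)) / √2 = rW w b l t := by
      unfold rW
      have e2 : (2 : ℝ)⁻¹ = (√2)⁻¹ * (√2)⁻¹ := by rw [← mul_inv, hs2]
      rw [div_eq_mul_inv _ (2 : ℝ), e2]
      ring
    rw [e] at h5
    exact h5
  · intro l t
    unfold rW
    have h3 := h.lo l ((t + b l) / √2)
    have h4 := h.lo l ((t - b l) / √2)
    linarith
  · intro l s t
    unfold rW
    have h3 := h.ho l ((s + b l) / √2) ((t + b l) / √2)
    have h4 := h.ho l ((s - b l) / √2) ((t - b l) / √2)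
    have e1 : (s + b l) / √2 - (t + b l) / √2 = (s - t) / √2 := by ring
    have e2 : (s - b l) / √2 - (t - b l) / √2 = (s - t) / √2 := by ring
    rw [e1] at h3
    rw [e2] at h4
    have e3 : |(s - t) / √2| ^ α = |s - t| ^ α / 2 ^ (α / 2) := by
      rw [abs_div, abs_of_pos h2, Real.div_rpow (abs_nonneg _) h2.le, hpow]
    rw [e3] at h3 h4
    have e4 : (w l ((s + b l) / √2) + w l ((s - b l) / √2)) / 2 -
        (w l ((t + b l) / √2) + w l ((t - b l) / √2)) / 2 =
        ((w l ((s + b l) / √2) - w l ((t + b l) / √2)) +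
          (w l ((s - b l) / √2) - w l ((t - b l) / √2))) / 2 := by ring
    rw [e4, abs_div, abs_two]
    have h5 := abs_add_le (w l ((s + b l) / √2) - w l ((t + b l) / √2))
      (w l ((s - b l) / √2) - w l ((t - b l) / √2))
    have e5 : K / 2 ^ (α / 2) * |s - t| ^ α = K * (|s - t| ^ α / 2 ^ (α / 2)) := by ring
    rw [e5]
    linarith

end Pool.Agent.Helper34.DF
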