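import Pool.Agent.Helper67.DF.Stmts

/-!
Project DF (MP_10bc19_gt), row PHF: the minorant is concave and locally Lipschitz.
-/

set_option autoImplicit false

open Finset MeasureTheory

namespace Pool.Agent.Helper34.DF

open Pool.Agent.Helper67.BT (E PG Sp)
open Pool.Agent.Helper67.DF

/-- the function with its coefficients -/
noncomputable def phi0 (R C s ω : ℝ) : ℝ :=
  R * (3 - s / ω - 2 * (ω / s - 2 + s / ω) - 5 / 2 * (ω / s - 2 + s / ω) ^ 2)
  - C * (ω / s + 2 / 5 * ((s / ω) ^ 2 + 2 * (ω / s) - 3))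

theorem convex_inv {s : ℝ} (hs : 0 < s) : ConvexOn ℝ (Set.Ioi 0) fun ω : ℝ => s / ω := by
  have h1 : ConvexOn ℝ (Set.Ioi 0) fun ω : ℝ => s * ω⁻¹ := by
    have h2 : ConvexOn ℝ (Set.Ioi 0) fun ω : ℝ => ω ^ (-1 : ℤ) := convexOn_zpow (-1)
    have h3 := h2.smul hs.le
    refine h3.congr ?_
    intro ω _
    show s • ω ^ (-1 : ℤ) = s * ω⁻¹
    rw [zpow_neg_one, smul_eq_mul]
  exact h1

theorem convex_lin {s : ℝ} (hs : 0 < s) : ConvexOn ℝ (Set.Ioi 0) fun ω : ℝ => ω / s := by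
  have h2 : ConvexOn ℝ (Set.Ioi (0 : ℝ)) fun ω : ℝ => ω := convexOn_id (convex_Ioi 0)
  have h3 := h2.smul (inv_nonneg.mpr hs.le)
  refine h3.congr ?_
  intro ω _
  show s⁻¹ • ω = ω / s
  rw [smul_eq_mul, div_eq_mul_inv, mul_comm]

theorem convex_g {s : ℝ} (hs : 0 < s) : ConvexOn ℝ (Set.Ioi 0) fun ω : ℝ => ω / s - 2 + s / ω := by
  have h1 := ((convex_lin hs).add (convexOn_const (-2) (convex_Ioi 0))).add (convex_inv hs)
  exact h1

theorem g_nonneg {s ω : ℝ} (hs : 0 < s) (hω : 0 < ω) : 0 ≤ ω / s - 2 + s / ω := by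
  have e : ω / s - 2 + s / ω = (ω - s) ^ 2 / (s * ω) := by
    field_simp
    ring
  rw [e]
  positivity

theorem phi0_concave {R C s : ℝ} (hR : 0 ≤ R) (hC : 0 ≤ C) (hs : 0 < s) :
    ConcaveOn ℝ (Set.Ioi 0) (phi0 R C s) := by
  have h1 := convex_inv hs
  have h2 := convex_lin hs
  have h3 := convex_g hs
  have h4 : ConvexOn ℝ (Set.Ioi 0) fun ω : ℝ => (ω / s - 2 + s / ω) ^ 2 :=
    h3.pow (fun ω hω => g_nonneg hs hω) 2
  have h5 : ConvexOn ℝ (Set.Ioi 0) fun ω : ℝ => (s / ω) ^ 2 :=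
    h1.pow (fun ω hω => (div_pos hs hω).le) 2
  have h6 : ConvexOn ℝ (Set.Ioi 0) fun ω : ℝ =>
      R * (s / ω + (2 * (ω / s - 2 + s / ω) + 5 / 2 * (ω / s - 2 + s / ω) ^ 2) + (-3)) +
      C * (ω / s + (2 / 5 * ((s / ω) ^ 2) + 4 / 5 * (ω / s) + (-(6 / 5)))) :=
    (((h1.add ((h3.smul (by norm_num : (0 : ℝ) ≤ 2)).add
      (h4.smul (by norm_num : (0 : ℝ) ≤ 5 / 2)))).add (convexOn_const (-3) (convex_Ioi 0))).smul
        hR).add
      ((h2.add (((h5.smul (by norm_num : (0 : ℝ) ≤ 2 / 5)).add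
        (h2.smul (by norm_num : (0 : ℝ) ≤ 4 / 5))).add (convexOn_const (-(6 / 5)) (convex_Ioi 0)))).smul
          hC)
  have h7 := h6.neg
  refine h7.congr ?_
  intro ω _
  show -(R * (s / ω + (2 * (ω / s - 2 + s / ω) + 5 / 2 * (ω / s - 2 + s / ω) ^ 2) + (-3)) +
      C * (ω / s + (2 / 5 * ((s / ω) ^ 2) + 4 / 5 * (ω / s) + (-(6 / 5))))) = phi0 R C s ω
  unfold phi0
  ring

theorem phi0_lip {R C s c : ℝ} (hR : 0 ≤ R) (hC : 0 ≤ C) (hs : 0 < s) (hc : 0 < c) :
    ∃ L : ℝ, 0 ≤ L ∧ ∀ x y : ℝ, c ≤ x → c ≤ y →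
      |phi0 R C s x - phi0 R C s y| ≤ L * (1 + x + y) * |x - y| := by
  -- bounds for the elementary functions
  set A : ℝ := 1 / s + s / c ^ 2 with hA
  set B : ℝ := 4 + 2 * (s / c) + 1 / s with hB
  have hA0 : 0 ≤ A := by positivity
  have hB0 : 0 ≤ B := by positivity
  refine ⟨R * (A + 2 * A + 5 / 2 * (A * B)) + C * (A + 2 / 5 * (A * B + 2 * A)), by positivity, ?_⟩
  intro x y hx hy
  have hx0 : 0 < x := lt_of_lt_of_le hc hx
  have hy0 : 0 < y := lt_of_lt_of_le hc hy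
  have hd0 : 0 ≤ |x - y| := abs_nonneg _
  have hsx : s / x ≤ s / c := div_le_div_of_nonneg_left hs.le hc hx
  have hsy : s / y ≤ s / c := div_le_div_of_nonneg_left hs.le hc hy
  have hsx0 : 0 < s / x := div_pos hs hx0
  have hsy0 : 0 < s / y := div_pos hs hy0
  have hxs0 : 0 < x / s := div_pos hx0 hs
  have hys0 : 0 < y / s := div_pos hy0 hs
  have hsc0 : 0 < s / c := div_pos hs hc
  have l1 : |x / s - y / s| ≤ 1 / s * |x - y| := by
    rw [← sub_div, abs_div, abs_of_pos hs]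
    apply le_of_eq
    ring
  have l2 : |s / x - s / y| ≤ s / c ^ 2 * |x - y| := by
    have e : s / x - s / y = s * (y - x) / (x * y) := by
      field_simp
    rw [e, abs_div, abs_mul, abs_of_pos hs, abs_of_pos (mul_pos hx0 hy0), abs_sub_comm y x]
    have h1 : c ^ 2 ≤ x * y := by nlinarith
    have h2 : s * |x - y| / (x * y) ≤ s * |x - y| / c ^ 2 :=
      div_le_div_of_nonneg_left (by positivity) (by positivity) h1
    refine h2.trans (le_of_eq ?_)
    ring
  have a1 : |x / s - y / s| ≤ A * |x - y| := by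
    refine l1.trans (mul_le_mul_of_nonneg_right ?_ hd0)
    rw [hA]
    have : 0 ≤ s / c ^ 2 := by positivity
    linarith
  have a2 : |s / x - s / y| ≤ A * |x - y| := by
    refine l2.trans (mul_le_mul_of_nonneg_right ?_ hd0)
    rw [hA]
    have : 0 ≤ 1 / s := by positivity
    linarith
  have a3 : |(x / s - 2 + s / x) - (y / s - 2 + s / y)| ≤ A * |x - y| := by
    have e : (x / s - 2 + s / x) - (y / s - 2 + s / y) = (x / s - y / s) + (s / x - s / y) := by ring
    rw [e]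
    refine (abs_add_le _ _).trans ?_
    rw [hA]
    linarith
  have hw : 1 ≤ 1 + x + y := by linarith
  have a4 : |(x / s - 2 + s / x) ^ 2 - (y / s - 2 + s / y) ^ 2| ≤ A * B * (1 + x + y) * |x - y| := by
    have e : (x / s - 2 + s / x) ^ 2 - (y / s - 2 + s / y) ^ 2 =
        ((x / s - 2 + s / x) - (y / s - 2 + s / y)) * ((x / s - 2 + s / x) + (y / s - 2 + s / y)) := by
      ring
    rw [e, abs_mul]
    have h1 : |(x / s - 2 + s / x) + (y / s - 2 + s / y)| ≤ B * (1 + x + y) := by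
      rw [abs_le]
      have h2 : (1 / s) * (x + y) = x / s + y / s := by ring
      constructor
      · have h3 : 0 ≤ B * (1 + x + y) := by positivity
        have h4 := g_nonneg hs hx0
        have h5 := g_nonneg hs hy0
        linarith
      · rw [hB]
        have h3 : 0 ≤ (4 + 2 * (s / c)) * (x + y) := by positivity
        have h4 : 0 ≤ 1 / s := by positivity
        nlinarith
    calc |(x / s - 2 + s / x) - (y / s - 2 + s / y)| * |(x / s - 2 + s / x) + (y / s - 2 + s / y)|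
        ≤ (A * |x - y|) * (B * (1 + x + y)) :=
          mul_le_mul a3 h1 (abs_nonneg _) (mul_nonneg hA0 hd0)
      _ = A * B * (1 + x + y) * |x - y| := by ring
  have a5 : |(s / x) ^ 2 - (s / y) ^ 2| ≤ A * B * |x - y| := by
    have e : (s / x) ^ 2 - (s / y) ^ 2 = (s / x - s / y) * (s / x + s / y) := by ring
    rw [e, abs_mul]
    have h1 : |s / x + s / y| ≤ B := by
      rw [abs_of_pos (by linarith), hB]
      have h4 : 0 ≤ 1 / s := by positivity
      linarith
    calc |s / x - s / y| * |s / x + s / y| ≤ (A * |x - y|) * B :=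
          mul_le_mul a2 h1 (abs_nonneg _) (mul_nonneg hA0 hd0)
      _ = A * B * |x - y| := by ring
  have e : phi0 R C s x - phi0 R C s y =
      R * (-(s / x - s / y) + -(2 * ((x / s - 2 + s / x) - (y / s - 2 + s / y))) +
        -(5 / 2 * ((x / s - 2 + s / x) ^ 2 - (y / s - 2 + s / y) ^ 2))) +
      -(C * ((x / s - y / s) + 2 / 5 * (((s / x) ^ 2 - (s / y) ^ 2) + 2 * (x / s - y / s)))) := by
    unfold phi0
    ring
  have b1 : |-(s / x - s / y) + -(2 * ((x / s - 2 + s / x) - (y / s - 2 + s / y))) +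
        -(5 / 2 * ((x / s - 2 + s / x) ^ 2 - (y / s - 2 + s / y) ^ 2))| ≤
      (A + 2 * A + 5 / 2 * (A * B)) * (1 + x + y) * |x - y| := by
    refine (abs_add_le _ _).trans ?_
    have h1 := abs_add_le (-(s / x - s / y)) (-(2 * ((x / s - 2 + s / x) - (y / s - 2 + s / y))))
    rw [abs_neg, abs_neg, abs_mul, abs_two] at h1
    rw [abs_neg (5 / 2 * ((x / s - 2 + s / x) ^ 2 - (y / s - 2 + s / y) ^ 2)), abs_mul,
      abs_of_pos (by norm_num : (0 : ℝ) < 5 / 2)]
    have h2 : A * |x - y| ≤ A * (1 + x + y) * |x - y| := by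
      refine mul_le_mul_of_nonneg_right ?_ hd0
      nlinarith
    nlinarith [a2, a3, a4, h1, h2]
  have b2 : |(x / s - y / s) + 2 / 5 * (((s / x) ^ 2 - (s / y) ^ 2) + 2 * (x / s - y / s))| ≤
      (A + 2 / 5 * (A * B + 2 * A)) * (1 + x + y) * |x - y| := by
    refine (abs_add_le _ _).trans ?_
    rw [abs_mul, abs_of_pos (by norm_num : (0 : ℝ) < 2 / 5)]
    have h1 := abs_add_le ((s / x) ^ 2 - (s / y) ^ 2) (2 * (x / s - y / s))
    rw [abs_mul 2, abs_two] at h1
    have h2 : A * |x - y| ≤ A * (1 + x + y) * |x - y| := by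
      refine mul_le_mul_of_nonneg_right ?_ hd0
      nlinarith
    have h3 : A * B * |x - y| ≤ A * B * (1 + x + y) * |x - y| := by
      refine mul_le_mul_of_nonneg_right ?_ hd0
      have : 0 ≤ A * B := mul_nonneg hA0 hB0
      nlinarith
    nlinarith [a1, a5, h1, h2, h3]
  rw [e]
  refine (abs_add_le _ _).trans ?_
  rw [abs_neg (C * _), abs_mul, abs_mul, abs_of_nonneg hR, abs_of_nonneg hC]
  have c1 := mul_le_mul_of_nonneg_left b1 hR
  have c2 := mul_le_mul_of_nonneg_left b2 hC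
  calc _ ≤ R * ((A + 2 * A + 5 / 2 * (A * B)) * (1 + x + y) * |x - y|) +
        C * ((A + 2 / 5 * (A * B + 2 * A)) * (1 + x + y) * |x - y|) := add_le_add c1 c2
    _ = _ := by ring

theorem st_PHF : ST_PHF := by
  intro n k s v a c hs hc
  have hR : ∀ l, 0 ≤ s l * ‖nv s v a l‖ ^ 2 := fun l => mul_nonneg (hs l).le (sq_nonneg _)
  have hC : ∀ l, 0 ≤ Cl s v a l := by
    intro l
    unfold Cl
    exact Finset.sum_nonneg fun j _ => mul_nonneg (mul_nonneg (hs j).le (hs l).le) (sq_nonneg _)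
  have hph : ∀ l, ph s v a l = phi0 (s l * ‖nv s v a l‖ ^ 2) (Cl s v a l) (s l) := by
    intro l
    funext ω
    rfl
  choose L hL0 hL using fun l => phi0_lip (hR l) (hC l) (hs l) hc
  refine ⟨∑ l, L l, Finset.sum_nonneg fun l _ => hL0 l, ?_, ?_⟩
  · intro l
    rw [hph]
    exact phi0_concave (hR l) (hC l) (hs l)
  · intro l x y hx hy
    rw [hph]
    refine (hL l x y hx hy).trans ?_
    refine mul_le_mul_of_nonneg_right ?_ (abs_nonneg _)
    refine mul_le_mul_of_nonneg_right ?_ (by linarith)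
    exact Finset.single_le_sum (fun j _ => hL0 j) (Finset.mem_univ l)

end Pool.Agent.Helper34.DF
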