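import Pool.Agent.Helper67.DF.Stmts

/-!
Project DF (MP_10bc19_gt), rows ROT and ROE: rotation of two copies.
-/

set_option autoImplicit false

open Finset MeasureTheory

namespace Pool.Agent.Helper34.DF

open Pool.Agent.Helper67.BT (E PG Sp)
open Pool.Agent.Helper67.DF

/-- the scaling `(p, z) ↦ (p / √2, √2 z)` -/
theorem mp_scale (k : ℕ) : MeasurePreserving
    (fun q : E k × E k => ((√2)⁻¹ • q.1, (√2) • q.2)) volume volume := by
  have h2 : (0 : ℝ) < √2 := Real.sqrt_pos.mpr two_pos
  refine ⟨by fun_prop, ?_⟩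
  have h1 := MeasureTheory.Measure.map_prod_map (volume : Measure (E k)) (volume : Measure (E k))
    (f := fun x : E k => (√2)⁻¹ • x) (g := fun x : E k => (√2) • x) (by fun_prop) (by fun_prop)
  have h3 : (fun q : E k × E k => ((√2)⁻¹ • q.1, (√2) • q.2)) =
      Prod.map (fun x : E k => (√2)⁻¹ • x) (fun x : E k => (√2) • x) := rfl
  rw [h3]
  show Measure.map _ ((volume : Measure (E k)).prod volume) = _
  rw [← h1, Measure.map_addHaar_smul _ (inv_ne_zero h2.ne'), Measure.map_addHaar_smul _ h2.ne',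
    Measure.prod_smul_left, Measure.prod_smul_right, smul_smul]
  have h4 : ENNReal.ofReal |((√2)⁻¹ ^ Module.finrank ℝ (E k))⁻¹| *
      ENNReal.ofReal |((√2) ^ Module.finrank ℝ (E k))⁻¹| = 1 := by
    rw [← ENNReal.ofReal_mul (abs_nonneg _), ← abs_mul, ← mul_inv, ← mul_pow,
      inv_mul_cancel₀ h2.ne', one_pow, inv_one, abs_one, ENNReal.ofReal_one]
  rw [h4, one_smul]
  rfl

theorem mp_rot (k : ℕ) : MeasurePreserving
    (fun q : E k × E k => (xp q.2 q.1, xm q.2 q.1)) volume volume := by
  have h2 : (0 : ℝ) < √2 := Real.sqrt_pos.mpr two_pos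
  have hs2 : √2 * √2 = 2 := Real.mul_self_sqrt two_pos.le
  have m1 : MeasurePreserving (fun z : E k × E k => (z.1, z.1 + z.2)) volume volume :=
    measurePreserving_prod_add volume volume
  have m2 : MeasurePreserving (Prod.swap : E k × E k → E k × E k) volume volume :=
    Measure.measurePreserving_swap
  have m4 : MeasurePreserving (Prod.map id (fun x : E k => -x)) (volume : Measure (E k × E k))
      volume := (MeasurePreserving.id volume).prod (Measure.measurePreserving_neg volume)
  have h := m1.comp (m4.comp ((mp_scale k).comp (m2.comp m1)))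
  have e : ((fun z : E k × E k => (z.1, z.1 + z.2)) ∘ (Prod.map id (fun x : E k => -x)) ∘
      (fun q : E k × E k => ((√2)⁻¹ • q.1, (√2) • q.2)) ∘ (Prod.swap : E k × E k → E k × E k) ∘
      (fun z : E k × E k => (z.1, z.1 + z.2))) =
      fun q : E k × E k => (xp q.2 q.1, xm q.2 q.1) := by
    funext q
    show ((√2)⁻¹ • (q.1 + q.2), (√2)⁻¹ • (q.1 + q.2) + -((√2) • q.1)) =
      ((√2)⁻¹ • (q.2 + q.1), (√2)⁻¹ • (q.2 - q.1))
    have e1 : (√2 : ℝ) = (√2)⁻¹ * 2 := by
      have h5 : (√2)⁻¹ * (√2 * √2) = √2 := by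
        rw [← mul_assoc, inv_mul_cancel₀ h2.ne', one_mul]
      rw [hs2] at h5
      exact h5.symm
    refine Prod.ext ?_ ?_
    · show (√2)⁻¹ • (q.1 + q.2) = (√2)⁻¹ • (q.2 + q.1)
      rw [add_comm]
    · show (√2)⁻¹ • (q.1 + q.2) + -((√2) • q.1) = (√2)⁻¹ • (q.2 - q.1)
      nth_rewrite 2 [e1]
      rw [mul_smul, ← smul_neg, ← smul_add]
      congr 1
      rw [two_smul]
      abel
  rw [e] at h
  exact h

theorem st_ROT : ST_ROT := by
  intro k F hF
  have hm := mp_rot k
  have h1 : Integrable (fun q : E k × E k => F (xp q.2 q.1, xm q.2 q.1)) :=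
    (hm.integrable_comp hF.aestronglyMeasurable).mpr hF
  refine ⟨h1, ?_⟩
  have h2 : ∫ q, F q = ∫ q : E k × E k, F (xp q.2 q.1, xm q.2 q.1) := by
    have h3 := integral_map (μ := (volume : Measure (E k × E k))) hm.measurable.aemeasurable
      (f := F) (by rw [hm.map_eq]; exact hF.aestronglyMeasurable)
    rw [hm.map_eq] at h3
    exact h3
  rw [h2]
  exact integral_prod _ h1

theorem VV_rot {n k : ℕ} (a : Fin n → E k) (U : Fin n → ℝ → ℝ) (z u : E k) :
    VV a (rU U (bb a z)) u = VV a U (xp u z) + VV a U (xm u z) := by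
  unfold VV rU bb xp xm
  rw [← Finset.sum_add_distrib]
  refine Finset.sum_congr rfl fun l _ => ?_
  rw [inner_smul_right, inner_smul_right, inner_add_right, inner_sub_right]
  congr 2 <;> ring

theorem st_ROE : ST_ROE := by
  intro n k a c K α U ψ w _ _ G hG
  obtain ⟨h1, h2⟩ := st_ROT k _ hG
  have e : ∀ z, J a (rU U (bb a z)) (fun u => G (xp u z) (xm u z)) =
      ∫ u, G (xp u z) (xm u z) * Real.exp (-(VV a U (xp u z))) * Real.exp (-(VV a U (xm u z))) := by
    intro z
    unfold J
    refine integral_congr_ae (Filter.Eventually.of_forall fun u => ?_)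
    show G (xp u z) (xm u z) * Real.exp (-(VV a (rU U (bb a z)) u)) = _
    rw [VV_rot, neg_add, Real.exp_add]
    exact (mul_assoc _ _ _).symm
  constructor
  · have h3 := h1.integral_prod_left
    refine h3.congr (Filter.Eventually.of_forall fun z => ?_)
    exact (e z).symm
  · rw [h2]
    refine integral_congr_ae (Filter.Eventually.of_forall fun z => ?_)
    exact (e z).symm

end Pool.Agent.Helper34.DF
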