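import Pool.Agent.Helper67.DF.Stmts

/-!
Project DF (MP_10bc19_gt), row UC: the potential `|t|^(11/5) + c t^2` is in the class.
-/

set_option autoImplicit false

open Finset MeasureTheory

namespace Pool.Agent.Helper34.DF

open Pool.Agent.Helper67.BT (E PG Sp)
open Pool.Agent.Helper67.DF

/-- the derivative of `|t|^a t` -/
theorem hasDerivAt_abs_rpow_mul (a : ℝ) (ha : 0 < a) (t : ℝ) :
    HasDerivAt (fun x : ℝ => |x| ^ a * x) ((a + 1) * |t| ^ a) t := by
  rcases eq_or_ne t 0 with rfl | ht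
  · rw [abs_zero, Real.zero_rpow ha.ne', mul_zero]
    rw [hasDerivAt_iff_tendsto_slope_zero]
    have h1 : Filter.Tendsto (fun x : ℝ => |x| ^ a) (nhdsWithin 0 {0}ᶜ) (nhds 0) := by
      have hc : Continuous fun x : ℝ => |x| ^ a := continuous_abs.rpow_const (fun _ => Or.inr ha.le)
      have h2 := hc.tendsto 0
      simp only [abs_zero, Real.zero_rpow ha.ne'] at h2
      exact h2.mono_left nhdsWithin_le_nhds
    refine h1.congr' ?_
    filter_upwards [self_mem_nhdsWithin] with x hx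
    have hx0 : x ≠ 0 := hx
    rw [zero_add, abs_zero, Real.zero_rpow ha.ne', zero_mul, sub_zero, smul_eq_mul]
    field_simp
  · have h1 : HasDerivAt (fun x : ℝ => |x| ^ a) (a * |t| ^ (a - 1) * (SignType.sign t : ℝ)) t := by
      have h2 := (hasDerivAt_abs ht).rpow_const (p := a) (Or.inl (abs_ne_zero.mpr ht))
      have e : (SignType.sign t : ℝ) * a * |t| ^ (a - 1) = a * |t| ^ (a - 1) * (SignType.sign t : ℝ) := by
        ring
      rw [e] at h2
      exact h2
    have h3 := h1.mul (hasDerivAt_id t)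
    have e : a * |t| ^ (a - 1) * (SignType.sign t : ℝ) * id t + |t| ^ a * 1 = (a + 1) * |t| ^ a := by
      have h4 : (SignType.sign t : ℝ) * t = |t| := by
        rw [sign_mul_self]
      have h5 : |t| ^ (a - 1) * |t| = |t| ^ a := by
        rw [← Real.rpow_add_one (abs_ne_zero.mpr ht)]
        congr 1
        ring
      show a * |t| ^ (a - 1) * (SignType.sign t : ℝ) * t + |t| ^ a * 1 = (a + 1) * |t| ^ a
      calc a * |t| ^ (a - 1) * (SignType.sign t : ℝ) * t + |t| ^ a * 1
          = a * (|t| ^ (a - 1) * ((SignType.sign t : ℝ) * t)) + |t| ^ a := by ring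
        _ = (a + 1) * |t| ^ a := by
            rw [h4, h5]
            ring
    rw [e] at h3
    exact h3

theorem abs_rpow_sub_le (a : ℝ) (ha : 0 ≤ a) (ha1 : a ≤ 1) (s t : ℝ) :
    |(|s| ^ a - |t| ^ a)| ≤ |s - t| ^ a := by
  have key : ∀ x y : ℝ, |x| ^ a ≤ |y| ^ a + |x - y| ^ a := by
    intro x y
    have h1 : |x| ≤ |y| + |x - y| := by
      have h2 := abs_add_le y (x - y)
      have e : y + (x - y) = x := by ring
      rwa [e] at h2
    have h3 : |x| ^ a ≤ (|y| + |x - y|) ^ a := Real.rpow_le_rpow (abs_nonneg _) h1 ha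
    have h4 : (|y| + |x - y|) ^ a ≤ |y| ^ a + |x - y| ^ a := by
      have h5 := NNReal.rpow_add_le_add_rpow (Real.toNNReal |y|) (Real.toNNReal |x - y|) ha ha1
      have h6 : (((Real.toNNReal |y| + Real.toNNReal |x - y|) ^ a : NNReal) : ℝ) ≤
          ((Real.toNNReal |y| ^ a + Real.toNNReal |x - y| ^ a : NNReal) : ℝ) := by
        exact_mod_cast h5
      rw [NNReal.coe_rpow, NNReal.coe_add, NNReal.coe_add, NNReal.coe_rpow, NNReal.coe_rpow,
        Real.coe_toNNReal _ (abs_nonneg _), Real.coe_toNNReal _ (abs_nonneg _)] at h6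
      exact h6
    exact h3.trans h4
  rw [abs_le]
  constructor
  · have h1 := key t s
    rw [abs_sub_comm] at h1
    linarith
  · have h1 := key s t
    linarith

theorem st_UC : ST_UC := by
  intro n c hc
  refine ⟨by linarith, by norm_num, by norm_num, by norm_num, ?_, ?_, ?_, ?_, ?_⟩
  · intro l t
    show Uc c (-t) = Uc c t
    unfold Uc
    rw [abs_neg, neg_sq]
  · intro l t
    show HasDerivAt (Uc c) (Pc c t) t
    have h1 := hasDerivAt_abs_rpow t (p := 11 / 5) (by norm_num)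
    have h2 := ((hasDerivAt_id t).pow 2).const_mul c
    have h3 := h1.add h2
    have e : 11 / 5 * |t| ^ ((11 : ℝ) / 5 - 2) * t + c * (((2 : ℕ) : ℝ) * id t ^ (2 - 1) * 1) = Pc c t := by
      unfold Pc
      have e1 : (11 : ℝ) / 5 - 2 = 1 / 5 := by norm_num
      rw [e1]
      simp only [id, Nat.cast_ofNat]
      ring
    rw [e] at h3
    exact h3
  · intro l t
    show HasDerivAt (Pc c) (Wc c t) t
    have h1 := (hasDerivAt_abs_rpow_mul (1 / 5) (by norm_num) t).const_mul (11 / 5)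
    have h2 := (hasDerivAt_id t).const_mul (2 * c)
    have h3 := h1.add h2
    have e : 11 / 5 * ((1 / 5 + 1) * |t| ^ ((1 : ℝ) / 5)) + 2 * c * 1 = Wc c t := by
      unfold Wc
      ring
    rw [e] at h3
    exact h3
  · intro l t
    show 2 * c ≤ Wc c t
    unfold Wc
    have : 0 ≤ |t| ^ (1 / 5 : ℝ) := Real.rpow_nonneg (abs_nonneg _) _
    linarith
  · intro l s t
    show |Wc c s - Wc c t| ≤ 66 / 25 * |s - t| ^ (1 / 5 : ℝ)
    unfold Wc
    have e : 66 / 25 * |s| ^ (1 / 5 : ℝ) + 2 * c - (66 / 25 * |t| ^ (1 / 5 : ℝ) + 2 * c) =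
        66 / 25 * (|s| ^ (1 / 5 : ℝ) - |t| ^ (1 / 5 : ℝ)) := by ring
    rw [e, abs_mul, abs_of_pos (by norm_num : (0 : ℝ) < 66 / 25)]
    exact mul_le_mul_of_nonneg_left (abs_rpow_sub_le (1 / 5) (by norm_num) (by norm_num) s t)
      (by norm_num)

end Pool.Agent.Helper34.DF
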